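import Pool.Agent.Results.MP_52931c_nt.LogPowerLowerBound

/-!
# Sets avoiding near arithmetic progressions: explicit exponents, uniform in `t` and `n`

The function `g t n = g_t(n)` is the one of the starting file `LogPowerLowerBound` (which proves
`g_t(n) ≥ (log n)^(-2)` for large `n`).  For an odd number `m ≤ t - 1` one may forbid one window
modulo `m 2^J` only: the blocks `1, …, m` of a near progression with difference `2^j`, `j ≥ J`,
run through all the residues modulo `m`.  The windows are chosen at `log log n` scales, with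
geometrically decreasing relative widths, so that the loss is exactly the factor `1 - 1/m` at every
scale, up to an absolute constant.
-/

set_option autoImplicit false

open Finset

namespace Pool.Agent.Results.MP_52931c_nt.UniformExponents

open Pool.Agent.Results.MP_52931c_nt.LogPowerLowerBound

/-- the separation property: the elements of a window of length `ρ 2^J - W` modulo `m 2^J` do not
meet all the blocks -/
def Sep (t m ρ : ℕ) : Prop :=
  ∀ J j W w s b : ℕ, J ≤ j → w ≤ W → W < 2 ^ J →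
    (∀ i ∈ Icc 1 (t - 1), ∃ a, (a + s) % (m * 2 ^ J) < ρ * 2 ^ J - W ∧
      b + i * 2 ^ j ≤ a ∧ a ≤ b + i * 2 ^ j + w) → False

lemma sep_three (t : ℕ) (ht : 3 ≤ t) : Sep t 3 1 := by
  intro J j W w s b hj hw hW h
  obtain ⟨a₁, h1, h2, h3⟩ := h 1 (by rw [mem_Icc]; omega)
  obtain ⟨a₂, h4, h5, h6⟩ := h 2 (by rw [mem_Icc]; omega)
  rw [one_mul] at h1 h2 h3 h4
  exact separation J j W w s a₁ a₂ b hj hw hW h1 h4 h2 h3 h5 h6

lemma sep_odd (t m : ℕ) (hm : Odd m) (hm3 : 3 ≤ m) (hmt : m + 1 ≤ t) : Sep t m (m - 1) := by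
  intro J j W w s b hj hw hW h
  obtain ⟨e, rfl⟩ := Nat.exists_eq_add_of_le hj
  set M : ℕ := 2 ^ J with hM
  have hM0 : 0 < M := by positivity
  have hpow : 2 ^ (J + e) = M * 2 ^ e := by rw [pow_add]
  have : NeZero m := ⟨by omega⟩
  set u : ℕ := 2 ^ e with hu
  have hcop : Nat.Coprime u m := by
    rw [hu]
    exact Nat.Coprime.pow_left _ (Nat.coprime_two_left.2 hm)
  set r0 := (b + s) % M with hr0
  set q0 := (b + s) / M with hq0
  have hbs : b + s = r0 + M * q0 := by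
    rw [hr0, hq0]; exact (Nat.mod_add_div _ _).symm
  have hr0M : r0 < M := Nat.mod_lt _ hM0
  -- the residue to be hit
  obtain ⟨c, hcm, hc1, hc2⟩ : ∃ c : ℕ, c < m ∧ (m - 1) * M - W ≤ r0 + M * c ∧
      r0 + M * c + W < m * M := by
    obtain ⟨m', rfl⟩ : ∃ m', m = m' + 2 := ⟨m - 2, by omega⟩
    by_cases hr : r0 + W < M
    · refine ⟨m' + 1, by omega, ?_, ?_⟩
      · have : (m' + 2 - 1) * M = M * (m' + 1) := by
          rw [show m' + 2 - 1 = m' + 1 by omega]; ring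
        omega
      · have : (m' + 2) * M = M * (m' + 1) + M := by ring
        omega
    · refine ⟨m', by omega, ?_, ?_⟩
      · have : (m' + 2 - 1) * M = M * m' + M := by
          rw [show m' + 2 - 1 = m' + 1 by omega]; ring
        omega
      · have : (m' + 2) * M = M * m' + 2 * M := by ring
        omega
  -- the block
  obtain ⟨i, hi1, hi2, hi3⟩ : ∃ i : ℕ, 1 ≤ i ∧ i ≤ m ∧ (q0 + i * u) % m = c := by
    set z : ZMod m := ((c : ZMod m) - (q0 : ZMod m)) * ((u : ZMod m)⁻¹) with hz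
    have huz : (u : ZMod m) * (u : ZMod m)⁻¹ = 1 := ZMod.coe_mul_inv_eq_one u hcop
    have hzu : z * (u : ZMod m) = (c : ZMod m) - q0 := by
      rw [hz, mul_assoc, mul_comm ((u : ZMod m)⁻¹), huz, mul_one]
    have key : ∀ i : ℕ, (i : ZMod m) = z → (q0 + i * u) % m = c := by
      intro i hi
      have h1 : ((q0 + i * u : ℕ) : ZMod m) = (c : ℕ) := by
        push_cast
        rw [hi, hzu]
        ring
      have h2 := (ZMod.natCast_eq_natCast_iff' _ _ _).1 h1
      rw [h2, Nat.mod_eq_of_lt hcm]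
    by_cases hz0 : z.val = 0
    · refine ⟨m, by omega, le_rfl, key m ?_⟩
      rw [ZMod.natCast_self]
      exact ((ZMod.val_eq_zero z).1 hz0).symm
    · exact ⟨z.val, by omega, (ZMod.val_lt z).le, key _ (ZMod.natCast_zmod_val z)⟩
  obtain ⟨a, ha1, ha2, ha3⟩ := h i (by rw [mem_Icc]; omega)
  rw [hpow] at ha2 ha3
  set k := (q0 + i * u) / m with hk
  have hdiv : q0 + i * u = c + m * k := by
    rw [← hi3, hk]; exact (Nat.mod_add_div _ _).symm
  have hy : b + i * (M * u) + s = r0 + M * c + m * M * k := by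
    have e1 : b + i * (M * u) + s = (b + s) + M * (i * u) := by ring
    rw [e1, hbs]
    have e2 : r0 + M * q0 + M * (i * u) = r0 + M * (q0 + i * u) := by ring
    rw [e2, hdiv]
    ring
  obtain ⟨x, hx⟩ : ∃ x, a = b + i * (M * u) + x := ⟨a - (b + i * (M * u)), by omega⟩
  have hxw : x ≤ w := by omega
  have has : a + s = (r0 + M * c + x) + m * M * k := by
    rw [hx]
    omega
  rw [has, Nat.add_mul_mod_self_left, Nat.mod_eq_of_lt (by omega)] at ha1
  omega

/-! ### the scales -/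

/-- the logarithm of the relative width -/
def ee (q : ℕ) : ℕ := if q = 0 then 1 else q

/-- the ends of the scales -/
def bb (q : ℕ) : ℕ := if q = 0 then 1 else 2 ^ q + q

/-- the exponents of the moduli -/
def JJ (N q : ℕ) : ℕ := N - bb q

/-- the widths -/
def WW (N q : ℕ) : ℕ := 2 ^ JJ N q / 2 ^ ee q

lemma ee_pos (q : ℕ) : 1 ≤ ee q := by
  unfold ee
  split_ifs <;> omega

lemma WW_lt (N q : ℕ) : WW N q < 2 ^ JJ N q := by
  unfold WW
  apply Nat.div_lt_self (by positivity)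
  exact Nat.one_lt_two_pow (by have := ee_pos q; omega)

lemma scales (n j w : ℕ) (hn : 1 ≤ n) (hj : 2 * 2 ^ j ≤ n) (hw : w * n < 2 ^ j * 2 ^ j) :
    ∃ q < Nat.log 2 (Nat.log 2 n) + 2, JJ (Nat.log 2 n) q ≤ j ∧ w ≤ WW (Nat.log 2 n) q := by
  set N := Nat.log 2 n with hN
  have h1 : 2 ^ N ≤ n := Nat.pow_log_le_self 2 (by omega)
  have h2 : n < 2 ^ (N + 1) := Nat.lt_pow_succ_log_self (by norm_num) n
  have h3 : j + 1 ≤ N := by
    have : 2 ^ (j + 1) < 2 ^ (N + 1) := by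
      calc 2 ^ (j + 1) = 2 * 2 ^ j := by ring
        _ ≤ n := hj
        _ < _ := h2
    have := (Nat.pow_lt_pow_iff_right (by norm_num : 1 < 2)).mp this
    omega
  have hw2 : w * 2 ^ N < 2 ^ (2 * j) := by
    calc w * 2 ^ N ≤ w * n := Nat.mul_le_mul_left _ h1
      _ < 2 ^ j * 2 ^ j := hw
      _ = 2 ^ (2 * j) := by rw [← pow_add]; congr 1; omega
  have hgen : ∀ J c : ℕ, (0 < w → 2 * j + c ≤ J + N) → w ≤ 2 ^ J / 2 ^ c := by
    intro J c hJ
    rcases Nat.eq_zero_or_pos w with h0 | h0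
    · rw [h0]; exact Nat.zero_le _
    · rw [Nat.le_div_iff_mul_le (by positivity)]
      by_contra hcon
      push Not at hcon
      have h4 : 2 ^ (J + N) < 2 ^ (2 * j + c) := by
        calc 2 ^ (J + N) = 2 ^ J * 2 ^ N := by rw [pow_add]
          _ < (w * 2 ^ c) * 2 ^ N := Nat.mul_lt_mul_of_pos_right hcon (by positivity)
          _ = (w * 2 ^ N) * 2 ^ c := by ring
          _ ≤ 2 ^ (2 * j) * 2 ^ c := Nat.mul_le_mul_right _ hw2.le
          _ = 2 ^ (2 * j + c) := by rw [pow_add]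
      have h5 := (Nat.pow_lt_pow_iff_right (by norm_num : 1 < 2)).mp h4
      have h6 := hJ h0
      omega
  have hpos : 0 < w → N < 2 * j := by
    intro h0
    have h4 : 2 ^ N < 2 ^ (2 * j) := by
      calc 2 ^ N = 1 * 2 ^ N := by ring
        _ ≤ w * 2 ^ N := Nat.mul_le_mul_right _ h0
        _ < _ := hw2
    exact (Nat.pow_lt_pow_iff_right (by norm_num : 1 < 2)).mp h4
  obtain ⟨i, hi⟩ : ∃ i, N = j + i := ⟨N - j, by omega⟩
  rcases Nat.lt_or_ge i 2 with hi2 | hi2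
  · -- `i = 1`
    have hi1 : i = 1 := by omega
    subst hi1
    refine ⟨0, by omega, ?_, ?_⟩
    · simp only [JJ, bb, if_true]; omega
    · have hJ : JJ N 0 = N - 1 := by simp [JJ, bb]
      have he : ee 0 = 1 := by simp [ee]
      unfold WW
      rw [hJ, he]
      apply hgen
      intro _
      omega
  · have hex : ∃ q, i ≤ 2 ^ q + q := ⟨i, Nat.le_add_left i _⟩
    classical
    obtain ⟨q, hq1, hq2⟩ : ∃ q, i ≤ 2 ^ q + q ∧ ∀ q' < q, 2 ^ q' + q' < i :=
      ⟨Nat.find hex, Nat.find_spec hex, fun q' hq' => by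
        have := Nat.find_min hex hq'
        omega⟩
    have hq0 : q ≠ 0 := by
      rintro rfl
      simp at hq1
      omega
    have hqm := hq2 (q - 1) (by omega)
    have hpq : 2 ^ q = 2 * 2 ^ (q - 1) := by
      obtain ⟨q', rfl⟩ : ∃ q', q = q' + 1 := ⟨q - 1, by omega⟩
      simp [pow_succ, mul_comm]
    have hqL : q < Nat.log 2 N + 2 := by
      by_contra hge
      push Not at hge
      have h5 := hq2 (Nat.log 2 N + 1) (by omega)
      have h6 : N < 2 ^ (Nat.log 2 N + 1) := Nat.lt_pow_succ_log_self (by norm_num) N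
      omega
    have hb : bb q = 2 ^ q + q := by simp [bb, hq0]
    have he : ee q = q := by simp [ee, hq0]
    refine ⟨q, hqL, ?_, ?_⟩
    · unfold JJ
      rw [hb]
      omega
    · unfold WW
      rw [he]
      apply hgen
      intro h0
      have h7 := hpos h0
      unfold JJ
      rw [hb]
      omega

/-- the sieve -/
theorem sieve {t m ρ : ℕ} (ht : 3 ≤ t) (hm : 0 < m) (hρm : ρ ≤ m) (hsep : Sep t m ρ) {n : ℕ}
    (hn : 1 ≤ n) :
    ∏ q ∈ range (Nat.log 2 (Nat.log 2 n) + 2),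
      (((ρ * 2 ^ JJ (Nat.log 2 n) q - WW (Nat.log 2 n) q : ℕ) : ℝ) /
        ((m * 2 ^ JJ (Nat.log 2 n) q : ℕ) : ℝ)) ≤ g t n := by
  set N := Nat.log 2 n with hN
  obtain ⟨A, hA, hq, hc⟩ := exists_set n (fun q => m * 2 ^ JJ N q)
    (fun q => ρ * 2 ^ JJ N q - WW N q) (fun q => by positivity)
    (fun q => (Nat.sub_le _ _).trans (Nat.mul_le_mul_right _ hρm)) (Nat.log 2 N + 2)
  have hav : Avoids A t n := by
    rintro d w ⟨⟨j, rfl⟩, hlt⟩ ⟨b, hb⟩
    obtain ⟨a₂, ha₂, hI₂⟩ := hb 2 (by rw [mem_Icc]; omega)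
    rw [Finset.mem_Icc] at hI₂
    have hle : a₂ ≤ n := (Finset.mem_Icc.mp (hA ha₂)).2
    have hj : 2 * 2 ^ j ≤ n := by omega
    have hw : w * n < 2 ^ j * 2 ^ j := by
      have hd : (0 : ℝ) < ((2 ^ j : ℕ) : ℝ) := by positivity
      have hnn : (0 : ℝ) < (n : ℝ) := by exact_mod_cast hn
      rw [div_lt_div_iff₀ hd hnn] at hlt
      exact_mod_cast hlt
    obtain ⟨q, hqL, hqJ, hqW⟩ := scales n j w hn hj hw
    obtain ⟨s, hs⟩ := hq q hqL
    refine hsep (JJ N q) j (WW N q) w s b hqJ hqW (WW_lt N q) fun i hi => ?_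
    obtain ⟨a, ha, hI⟩ := hb i hi
    rw [Finset.mem_Icc] at hI
    exact ⟨a, hs a ha, hI.1, hI.2⟩
  have hnpos : (0 : ℝ) < (n : ℝ) := by exact_mod_cast hn
  have hcard : A.card ≤ n := by
    have := Finset.card_le_card hA
    simpa using this
  have hmem : (A.card : ℝ) / n ∈ gridValues t n := by
    refine ⟨⟨A.card, hcard, rfl⟩, A, hA, ?_, hav⟩
    rw [div_mul_cancel₀ _ hnpos.ne']
  have hg : (A.card : ℝ) / n ≤ g t n := le_csSup (gridValues_finite t n).bddAbove hmem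
  refine le_trans ?_ hg
  rw [le_div_iff₀ hnpos, mul_comm]
  exact hc

/-! ### the products -/

lemma WW_le (N q : ℕ) : (WW N q : ℝ) ≤ 2 ^ JJ N q * (1 / 2) ^ ee q := by
  unfold WW
  refine (Nat.cast_div_le).trans (le_of_eq ?_)
  push_cast
  rw [div_eq_mul_inv, one_div, inv_pow]

lemma factor_odd {m : ℕ} (hm : 3 ≤ m) (N q : ℕ) :
    (1 - 1 / (m : ℝ)) * (1 - (1 / 2) ^ (ee q + 1)) ≤
      (((m - 1) * 2 ^ JJ N q - WW N q : ℕ) : ℝ) / ((m * 2 ^ JJ N q : ℕ) : ℝ) := by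
  have hmR : (3 : ℝ) ≤ m := by exact_mod_cast hm
  have hP : (0 : ℝ) < 2 ^ JJ N q := by positivity
  have hle : WW N q ≤ (m - 1) * 2 ^ JJ N q := by
    have h1 := (WW_lt N q).le
    have h2 : 1 * 2 ^ JJ N q ≤ (m - 1) * 2 ^ JJ N q := Nat.mul_le_mul_right _ (by omega)
    omega
  rw [Nat.cast_sub hle]
  push_cast
  rw [Nat.cast_sub (by omega)]
  have hW := WW_le N q
  rw [le_div_iff₀ (by positivity)]
  have hx : (0 : ℝ) ≤ (1 / 2) ^ ee q := by positivity
  have e1 : (1 - 1 / (m : ℝ)) * (1 - (1 / 2) ^ (ee q + 1)) * (m * 2 ^ JJ N q) =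
      (m - 1) * (1 - (1 / 2) ^ ee q / 2) * 2 ^ JJ N q := by
    rw [pow_succ]
    field_simp
  rw [e1]
  push_cast
  have h3 : (m - 1) * (1 - (1 / 2 : ℝ) ^ ee q / 2) * 2 ^ JJ N q =
      (m - 1) * 2 ^ JJ N q - ((m - 1) / 2) * ((1 / 2) ^ ee q * 2 ^ JJ N q) := by ring
  rw [h3]
  have h4 : (0 : ℝ) ≤ (1 / 2) ^ ee q * 2 ^ JJ N q := by positivity
  nlinarith

lemma factor_three (N q : ℕ) :
    (1 / 3 : ℝ) * (1 - (1 / 2) ^ ee q) ≤
      ((1 * 2 ^ JJ N q - WW N q : ℕ) : ℝ) / ((3 * 2 ^ JJ N q : ℕ) : ℝ) := by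
  have hP : (0 : ℝ) < 2 ^ JJ N q := by positivity
  have hle : WW N q ≤ 1 * 2 ^ JJ N q := by
    rw [one_mul]; exact (WW_lt N q).le
  rw [Nat.cast_sub hle]
  push_cast
  have hW := WW_le N q
  rw [le_div_iff₀ (by positivity)]
  nlinarith

lemma prod_odd (Q : ℕ) : (1 / 4 : ℝ) ≤ ∏ q ∈ range Q, (1 - (1 / 2 : ℝ) ^ (ee q + 1)) := by
  have hle : ∀ Q : ℕ, ∏ q ∈ range Q, (1 - (1 / 2 : ℝ) ^ (ee q + 1)) ≤ 1 := fun Q =>
    Finset.prod_le_one (fun q _ => by
      have : (1 / 2 : ℝ) ^ (ee q + 1) ≤ 1 := pow_le_one₀ (by norm_num) (by norm_num)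
      linarith) (fun q _ => by
      have : (0 : ℝ) ≤ (1 / 2 : ℝ) ^ (ee q + 1) := by positivity
      linarith)
  rcases Nat.eq_zero_or_pos Q with rfl | hQ
  · simp; norm_num
  · have key : ∀ k : ℕ, (1 / 4 : ℝ) + (1 / 2) ^ (k + 1) ≤
        ∏ q ∈ range (k + 1), (1 - (1 / 2 : ℝ) ^ (ee q + 1)) := by
      intro k
      induction k with
      | zero => simp [ee]; norm_num
      | succ k ih =>
        rw [prod_range_succ]
        have he : ee (k + 1) = k + 1 := by simp [ee]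
        rw [he]
        have h1 := hle (k + 1)
        have h2 : (0 : ℝ) ≤ (1 / 2) ^ (k + 1 + 1) := by positivity
        have h3 : (1 / 2 : ℝ) ^ (k + 1) = 2 * (1 / 2) ^ (k + 1 + 1) := by
          rw [pow_succ (1 / 2 : ℝ) (k + 1)]; ring
        nlinarith
    obtain ⟨k, rfl⟩ : ∃ k, Q = k + 1 := ⟨Q - 1, by omega⟩
    have := key k
    have h2 : (0 : ℝ) ≤ (1 / 2) ^ (k + 1) := by positivity
    linarith

lemma prod_three (L : ℕ) : (1 / 8 : ℝ) ≤ ∏ q ∈ range (L + 2), (1 - (1 / 2 : ℝ) ^ ee q) := by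
  have hle : ∀ k : ℕ, ∏ q ∈ range (k + 2), (1 - (1 / 2 : ℝ) ^ ee q) ≤ 1 / 4 := by
    intro k
    induction k with
    | zero => simp [prod_range_succ, ee]; norm_num
    | succ k ih =>
      rw [prod_range_succ]
      have h0 : 0 ≤ ∏ q ∈ range (k + 2), (1 - (1 / 2 : ℝ) ^ ee q) :=
        Finset.prod_nonneg fun q _ => by
          have : (1 / 2 : ℝ) ^ ee q ≤ 1 := pow_le_one₀ (by norm_num) (by norm_num)
          linarith
      have h2 : (0 : ℝ) ≤ (1 / 2) ^ ee (k + 2) := by positivity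
      nlinarith
  have key : ∀ k : ℕ, (1 / 8 : ℝ) + 1 / 4 * (1 / 2) ^ (k + 1) ≤
      ∏ q ∈ range (k + 2), (1 - (1 / 2 : ℝ) ^ ee q) := by
    intro k
    induction k with
    | zero => simp [prod_range_succ, ee]; norm_num
    | succ k ih =>
      rw [prod_range_succ]
      have he : ee (k + 2) = k + 2 := by simp [ee]
      rw [he]
      have h1 := hle k
      have h2 : (0 : ℝ) ≤ (1 / 2) ^ (k + 2) := by positivity
      have h3 : (1 / 2 : ℝ) ^ (k + 1) = 2 * (1 / 2) ^ (k + 2) := by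
        rw [pow_succ (1 / 2 : ℝ) (k + 1)]; ring
      have h4 : k + 1 + 1 = k + 2 := rfl
      rw [h4]
      nlinarith
  have := key L
  have h2 : (0 : ℝ) ≤ (1 / 2) ^ (L + 1) := by positivity
  linarith

/-! ### logarithms -/

lemma log_two_lt_one : Real.log 2 < 1 := by
  have := Real.log_two_lt_d9
  linarith

lemma pow_lower {x θ : ℝ} (hx0 : 0 < x) (hx1 : x ≤ 1) (hθ : θ * Real.log 2 = -Real.log x) {n : ℕ}
    (hn : 2 ≤ n) : Real.log 2 ^ θ * Real.log n ^ (-θ) ≤ x ^ Nat.log 2 (Nat.log 2 n) := by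
  set N := Nat.log 2 n with hN
  set L := Nat.log 2 N with hL
  have h2 : 0 < Real.log 2 := Real.log_pos (by norm_num)
  have hN1 : 1 ≤ N := Nat.le_log_of_pow_le (by norm_num) (by omega)
  have hLN : 2 ^ L ≤ N := Nat.pow_log_le_self 2 (by omega)
  have hNn : 2 ^ N ≤ n := Nat.pow_log_le_self 2 (by omega)
  have hlogn : (2 : ℝ) ^ L * Real.log 2 ≤ Real.log n := by
    have h1 : Real.log ((2 : ℝ) ^ N) ≤ Real.log n := by
      apply Real.log_le_log (by positivity)
      exact_mod_cast hNn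
    rw [Real.log_pow] at h1
    have h2 : (2 : ℝ) ^ L ≤ N := by exact_mod_cast hLN
    nlinarith
  have hln : 0 < Real.log n := lt_of_lt_of_le (by positivity) hlogn
  have hll : L * Real.log 2 + Real.log (Real.log 2) ≤ Real.log (Real.log n) := by
    have := Real.log_le_log (by positivity) hlogn
    rwa [Real.log_mul (by positivity) (by positivity), Real.log_pow] at this
  have hθ0 : 0 ≤ θ := by
    have : 0 ≤ θ * Real.log 2 := by
      rw [hθ]
      have := Real.log_nonpos hx0.le hx1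
      linarith
    exact nonneg_of_mul_nonneg_left this h2
  rw [Real.rpow_def_of_pos h2, Real.rpow_def_of_pos hln, ← Real.exp_add,
    ← Real.exp_log (pow_pos hx0 L), Real.log_pow, Real.exp_le_exp]
  have e1 : (L : ℝ) * Real.log x = -(θ * (L * Real.log 2)) := by
    have : Real.log x = -(θ * Real.log 2) := by linarith
    rw [this]; ring
  rw [e1]
  nlinarith

lemma theta_lt {m : ℕ} (hm : 3 ≤ m) :
    Real.log ((m : ℝ) / (m - 1)) / Real.log 2 < 2 / (m : ℝ) := by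
  have hmR : (3 : ℝ) ≤ m := by exact_mod_cast hm
  have h2 : 0.6931471803 < Real.log 2 := Real.log_two_gt_d9
  rw [div_lt_div_iff₀ (by linarith) (by linarith)]
  have h1 : (m : ℝ) / (m - 1) ≤ (1 + 0.69 / m) ^ 2 := by
    rw [div_le_iff₀ (by linarith)]
    have e : (1 + 0.69 / (m : ℝ)) ^ 2 * (m - 1) = (m + 0.69) ^ 2 * (m - 1) / m ^ 2 := by
      field_simp
    rw [e, le_div_iff₀ (by positivity)]
    nlinarith [mul_nonneg (sub_nonneg.2 hmR) (sub_nonneg.2 hmR)]
  have h3 : Real.log ((m : ℝ) / (m - 1)) ≤ 2 * (0.69 / m) := by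
    calc Real.log ((m : ℝ) / (m - 1)) ≤ Real.log ((1 + 0.69 / m) ^ 2) :=
          Real.log_le_log (div_pos (by linarith) (by linarith)) h1
      _ = 2 * Real.log (1 + 0.69 / m) := by rw [Real.log_pow]; norm_num
      _ ≤ 2 * (0.69 / m) := by
          have h4 := Real.log_le_sub_one_of_pos (show (0 : ℝ) < 1 + 0.69 / m by positivity)
          linarith
  have h5 : Real.log ((m : ℝ) / (m - 1)) * m ≤ 2 * (0.69 / m) * m := by gcongr
  have h6 : 2 * (0.69 / (m : ℝ)) * m = 1.38 := by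
    field_simp
    norm_num
  linarith

/-- odd moduli -/
theorem odd_bound {t m n : ℕ} (hm : Odd m) (hm3 : 3 ≤ m) (hmt : m + 1 ≤ t) (hn : 2 ≤ n) :
    1 / 14 * Real.log n ^ (-(Real.log ((m : ℝ) / (m - 1)) / Real.log 2)) ≤ g t n := by
  have hmR : (3 : ℝ) ≤ m := by exact_mod_cast hm3
  have h2 : 0 < Real.log 2 := Real.log_pos (by norm_num)
  have h2' : 0.6931471803 < Real.log 2 := Real.log_two_gt_d9
  set N := Nat.log 2 n with hN
  set L := Nat.log 2 N with hL
  set x : ℝ := 1 - 1 / (m : ℝ) with hx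
  have hxm : x = ((m : ℝ) - 1) / m := by rw [hx]; field_simp
  have hx23 : 2 / 3 ≤ x := by
    have : 1 / (m : ℝ) ≤ 1 / 3 := by gcongr
    rw [hx]; linarith
  have hx0 : 0 < x := by linarith
  have hx1 : x ≤ 1 := by
    have : 0 ≤ 1 / (m : ℝ) := by positivity
    rw [hx]; linarith
  set θ : ℝ := Real.log ((m : ℝ) / (m - 1)) / Real.log 2 with hθ
  have hθx : θ * Real.log 2 = -Real.log x := by
    rw [hθ, div_mul_cancel₀ _ h2.ne', hxm, ← Real.log_inv, inv_div]
  have hθ1 : θ ≤ 1 := by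
    have := theta_lt hm3
    have h3 : 2 / (m : ℝ) ≤ 1 := by
      rw [div_le_one (by linarith)]; linarith
    linarith
  have hpl := pow_lower hx0 hx1 hθx hn
  have hs := sieve (t := t) (m := m) (ρ := m - 1) (by omega) (by omega) (by omega)
    (sep_odd t m hm hm3 hmt) (n := n) (by omega)
  refine le_trans ?_ hs
  have hprod : (x : ℝ) ^ (L + 2) * ∏ q ∈ range (L + 2), (1 - (1 / 2 : ℝ) ^ (ee q + 1)) ≤
      ∏ q ∈ range (L + 2), ((((m - 1) * 2 ^ JJ N q - WW N q : ℕ) : ℝ) /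
        ((m * 2 ^ JJ N q : ℕ) : ℝ)) := by
    rw [← Finset.card_range (L + 2), ← Finset.prod_const, Finset.card_range,
      ← Finset.prod_mul_distrib]
    refine Finset.prod_le_prod (fun q _ => mul_nonneg hx0.le ?_) fun q _ => factor_odd hm3 N q
    have : (1 / 2 : ℝ) ^ (ee q + 1) ≤ 1 := pow_le_one₀ (by norm_num) (by norm_num)
    linarith
  refine le_trans ?_ hprod
  have hp4 := prod_odd (L + 2)
  have hlog0 : 0 ≤ Real.log n ^ (-θ) := Real.rpow_nonneg (Real.log_natCast_nonneg n) _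
  have hl2 : 0.69 ≤ Real.log 2 ^ θ := by
    calc (0.69 : ℝ) ≤ Real.log 2 ^ (1 : ℝ) := by rw [Real.rpow_one]; linarith
      _ ≤ Real.log 2 ^ θ := Real.rpow_le_rpow_of_exponent_ge h2 log_two_lt_one.le hθ1
  have hxL : 0 ≤ x ^ L := by positivity
  have h3 : 0.69 * Real.log n ^ (-θ) ≤ x ^ L := by
    refine le_trans ?_ hpl
    gcongr
  have h4 : 4 / 9 ≤ x ^ 2 := by nlinarith
  calc 1 / 14 * Real.log n ^ (-θ) ≤ 4 / 9 * (1 / 4) * (0.69 * Real.log n ^ (-θ)) := by nlinarith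
    _ ≤ x ^ 2 * (∏ q ∈ range (L + 2), (1 - (1 / 2 : ℝ) ^ (ee q + 1))) * x ^ L := by gcongr
    _ = x ^ (L + 2) * ∏ q ∈ range (L + 2), (1 - (1 / 2 : ℝ) ^ (ee q + 1)) := by
        rw [pow_add]; ring

/-- the case `t = 3` -/
theorem three_bound {n : ℕ} (hn : 2 ≤ n) :
    1 / 152 * Real.log n ^ (-(Real.log 3 / Real.log 2)) ≤ g 3 n := by
  have h2 : 0 < Real.log 2 := Real.log_pos (by norm_num)
  have h2' : 0.6931471803 < Real.log 2 := Real.log_two_gt_d9
  set N := Nat.log 2 n with hN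
  set L := Nat.log 2 N with hL
  set θ : ℝ := Real.log 3 / Real.log 2 with hθ
  have hθx : θ * Real.log 2 = -Real.log (1 / 3) := by
    rw [hθ, div_mul_cancel₀ _ h2.ne', one_div, Real.log_inv, neg_neg]
  have hθ2 : θ ≤ 2 := by
    rw [hθ, div_le_iff₀ h2]
    calc Real.log 3 ≤ Real.log (2 ^ 2) := Real.log_le_log (by norm_num) (by norm_num)
      _ = 2 * Real.log 2 := by rw [Real.log_pow]; norm_num
  have hpl := pow_lower (x := 1 / 3) (by norm_num) (by norm_num) hθx hn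
  have hs := sieve (t := 3) (m := 3) (ρ := 1) (by omega) (by omega) (by omega)
    (sep_three 3 le_rfl) (n := n) (by omega)
  refine le_trans ?_ hs
  have hprod : (1 / 3 : ℝ) ^ (L + 2) * ∏ q ∈ range (L + 2), (1 - (1 / 2 : ℝ) ^ ee q) ≤
      ∏ q ∈ range (L + 2), (((1 * 2 ^ JJ N q - WW N q : ℕ) : ℝ) /
        ((3 * 2 ^ JJ N q : ℕ) : ℝ)) := by
    rw [← Finset.card_range (L + 2), ← Finset.prod_const, Finset.card_range,
      ← Finset.prod_mul_distrib]
    refine Finset.prod_le_prod (fun q _ => mul_nonneg (by norm_num) ?_) fun q _ => factor_three N q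
    have : (1 / 2 : ℝ) ^ ee q ≤ 1 := pow_le_one₀ (by norm_num) (by norm_num)
    linarith
  refine le_trans ?_ hprod
  have hp8 := prod_three L
  have hlog0 : 0 ≤ Real.log n ^ (-θ) := Real.rpow_nonneg (Real.log_natCast_nonneg n) _
  have hl2 : 0.476 ≤ Real.log 2 ^ θ := by
    calc (0.476 : ℝ) ≤ Real.log 2 ^ (2 : ℝ) := by
          rw [Real.rpow_two]
          nlinarith
      _ ≤ Real.log 2 ^ θ := Real.rpow_le_rpow_of_exponent_ge h2 log_two_lt_one.le hθ2
  have h3 : 0.476 * Real.log n ^ (-θ) ≤ (1 / 3) ^ L := by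
    refine le_trans ?_ hpl
    gcongr
  calc 1 / 152 * Real.log n ^ (-θ) ≤ (1 / 3) ^ 2 * (1 / 8) * (0.476 * Real.log n ^ (-θ)) := by
        nlinarith
    _ ≤ (1 / 3) ^ 2 * (∏ q ∈ range (L + 2), (1 - (1 / 2 : ℝ) ^ ee q)) * (1 / 3) ^ L := by gcongr
    _ = (1 / 3) ^ (L + 2) * ∏ q ∈ range (L + 2), (1 - (1 / 2 : ℝ) ^ ee q) := by
        rw [pow_add]; ring

/-- an odd number in `{t - 2, t - 1}` -/
lemma exists_odd {t : ℕ} (ht : 4 ≤ t) : ∃ m : ℕ, Odd m ∧ 3 ≤ m ∧ m + 1 ≤ t ∧ t ≤ m + 2 := by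
  rcases Nat.even_or_odd t with h | h
  · exact ⟨t - 1, Nat.Even.sub_odd (by omega) h odd_one, by omega, by omega, by omega⟩
  · have h5 : 5 ≤ t := by
      obtain ⟨k, hk⟩ := h
      omega
    exact ⟨t - 2, Nat.Odd.sub_even (by omega) h even_two, by omega, by omega, by omega⟩

theorem dense_bound {t n : ℕ} (ht : 4 ≤ t) (hn : 2 ≤ n) (hlog : Real.log (Real.log n) ≤ t - 2) :
    1 / 110 ≤ g t n := by
  obtain ⟨m, hm, hm3, hmt, htm⟩ := exists_odd ht
  have hmR : (3 : ℝ) ≤ m := by exact_mod_cast hm3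
  have htR : (t : ℝ) ≤ m + 2 := by exact_mod_cast htm
  have h2' : 0.6931471803 < Real.log 2 := Real.log_two_gt_d9
  have hln : 0 < Real.log n := Real.log_pos (by exact_mod_cast (by omega : 1 < n))
  refine le_trans ?_ (odd_bound hm hm3 hmt hn)
  set θ : ℝ := Real.log ((m : ℝ) / (m - 1)) / Real.log 2 with hθ
  have hθ0 : 0 ≤ θ := by
    rw [hθ]
    refine div_nonneg (Real.log_nonneg ?_) (by linarith)
    rw [le_div_iff₀ (by linarith)]
    linarith
  have hθm : θ * m ≤ 2 := by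
    have := (theta_lt hm3).le
    rwa [← hθ, le_div_iff₀ (by linarith)] at this
  have h1 : Real.exp (-2) ≤ Real.log n ^ (-θ) := by
    rw [Real.rpow_def_of_pos hln, Real.exp_le_exp]
    have h3 : θ * Real.log (Real.log n) ≤ θ * m := by
      apply mul_le_mul_of_nonneg_left _ hθ0
      linarith
    nlinarith
  have h4 : (14 / 110 : ℝ) ≤ Real.exp (-2) := by
    rw [Real.exp_neg]
    have h5 : Real.exp 2 ≤ 7.4 := by
      have h6 : Real.exp 2 = Real.exp 1 * Real.exp 1 := by rw [← Real.exp_add]; norm_num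
      have h7 := Real.exp_one_lt_d9
      have h8 := Real.exp_pos 1
      rw [h6]
      nlinarith
    rw [le_inv_comm₀ (by norm_num) (Real.exp_pos 2)]
    refine h5.trans ?_
    norm_num
  linarith

/-- constants are absorbed -/
lemma absorb {c θ κ : ℝ} (hc : 0 < c) (h : θ < κ) : ∃ n₀ : ℕ, ∀ n : ℕ, n₀ ≤ n →
    Real.log n ^ (-κ) ≤ c * Real.log n ^ (-θ) := by
  have h1 : Filter.Tendsto (fun n : ℕ => Real.log n ^ (κ - θ)) Filter.atTop Filter.atTop :=
    (tendsto_rpow_atTop (sub_pos.2 h)).comp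
      (Real.tendsto_log_atTop.comp tendsto_natCast_atTop_atTop)
  obtain ⟨n₀, hn₀⟩ := (h1.eventually_ge_atTop (1 / c)).exists_forall_of_atTop
  refine ⟨max n₀ 2, fun n hn => ?_⟩
  have hln : 0 < Real.log n :=
    Real.log_pos (by exact_mod_cast (by have := le_of_max_le_right hn; omega : 1 < n))
  have h2 := hn₀ n (le_of_max_le_left hn)
  have h3 : Real.log n ^ (-θ) = Real.log n ^ (κ - θ) * Real.log n ^ (-κ) := by
    rw [← Real.rpow_add hln]
    congr 1
    ring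
  rw [h3, ← mul_assoc]
  have h4 : 1 ≤ c * Real.log n ^ (κ - θ) := by
    rw [div_le_iff₀ hc] at h2
    linarith
  have h5 : 0 ≤ Real.log n ^ (-κ) := Real.rpow_nonneg hln.le _
  nlinarith

theorem all_bound {t : ℕ} (ht : 3 ≤ t) : ∃ n₀ : ℕ, ∀ n : ℕ, n₀ ≤ n →
    Real.log n ^ (-(2 / ((t : ℝ) - 2))) ≤ g t n := by
  have h2 : 0 < Real.log 2 := Real.log_pos (by norm_num)
  rcases Nat.lt_or_ge t 4 with h | h
  · have ht3 : t = 3 := by omega
    subst ht3
    have hlt : Real.log 3 / Real.log 2 < 2 / (((3 : ℕ) : ℝ) - 2) := by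
      have e : (2 : ℝ) / (((3 : ℕ) : ℝ) - 2) = 2 := by norm_num
      rw [e, div_lt_iff₀ h2]
      calc Real.log 3 < Real.log (2 ^ 2) := Real.log_lt_log (by norm_num) (by norm_num)
        _ = 2 * Real.log 2 := by rw [Real.log_pow]; norm_num
    obtain ⟨n₀, hn₀⟩ := absorb (c := 1 / 152) (by norm_num) hlt
    exact ⟨max n₀ 2, fun n hn => (hn₀ n (le_of_max_le_left hn)).trans
      (three_bound (le_of_max_le_right hn))⟩
  · obtain ⟨m, hm, hm3, hmt, htm⟩ := exists_odd h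
    have hmR : (3 : ℝ) ≤ m := by exact_mod_cast hm3
    have htR : (t : ℝ) ≤ m + 2 := by exact_mod_cast htm
    have htR' : (4 : ℝ) ≤ t := by exact_mod_cast h
    have hlt : Real.log ((m : ℝ) / (m - 1)) / Real.log 2 < 2 / ((t : ℝ) - 2) := by
      refine (theta_lt hm3).trans_le ?_
      have : (0 : ℝ) < t - 2 := by linarith
      gcongr
      linarith
    obtain ⟨n₀, hn₀⟩ := absorb (c := 1 / 14) (by norm_num) hlt
    exact ⟨max n₀ 2, fun n hn => (hn₀ n (le_of_max_le_left hn)).trans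
      (odd_bound hm hm3 hmt (le_of_max_le_right hn))⟩

/-- **Sets avoiding near progressions, uniformly in `t` and `n`.**
(1) For all `t`, `n ≥ 2` and all odd `m` with `3 ≤ m ≤ t - 1`:
`g_t(n) ≥ (1/14) (log n)^(-log (m/(m-1)) / log 2)`.
(2) `g_3(n) ≥ (1/152) (log n)^(-log 3 / log 2)` for all `n ≥ 2`.
(3) `g_t(n) ≥ 1/110` as soon as `t ≥ 4` and `t - 2 ≥ log log n`.
(4) For every `t ≥ 3` and all large `n`: `g_t(n) ≥ (log n)^(-2/(t-2))`.
(5) Answer to the question (negative, for every `t`): for every `t ≥ 3` and every `k ≥ 1`, `k ≥ 2` if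
`t = 3`, one has `g_t(n) ≥ 1/(log n)^k` for all large `n`. -/
theorem result :
    (∀ t m n : ℕ, Odd m → 3 ≤ m → m + 1 ≤ t → 2 ≤ n →
      1 / 14 * Real.log n ^ (-(Real.log ((m : ℝ) / (m - 1)) / Real.log 2)) ≤ g t n) ∧
    (∀ n : ℕ, 2 ≤ n → 1 / 152 * Real.log n ^ (-(Real.log 3 / Real.log 2)) ≤ g 3 n) ∧
    (∀ t n : ℕ, 4 ≤ t → 2 ≤ n → Real.log (Real.log n) ≤ t - 2 → 1 / 110 ≤ g t n) ∧
    (∀ t : ℕ, 3 ≤ t → ∃ n₀ : ℕ, ∀ n : ℕ, n₀ ≤ n →
      Real.log n ^ (-(2 / ((t : ℝ) - 2))) ≤ g t n) ∧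
    (∀ t k : ℕ, 3 ≤ t → 1 ≤ k → (t = 3 → 2 ≤ k) → ∃ n₀ : ℕ, ∀ n : ℕ, n₀ ≤ n →
      1 / (Real.log n) ^ k ≤ g t n) := by
  refine ⟨fun t m n hm hm3 hmt hn => odd_bound hm hm3 hmt hn, fun n hn => three_bound hn,
    fun t n ht hn hlog => dense_bound ht hn hlog, fun t ht => all_bound ht,
    fun t k ht hk hk3 => ?_⟩
  obtain ⟨n₀, hn₀⟩ := all_bound ht
  refine ⟨max n₀ 3, fun n hn => le_trans ?_ (hn₀ n (le_of_max_le_left hn))⟩
  have hn3 : 3 ≤ n := le_of_max_le_right hn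
  have hn3R : (3 : ℝ) ≤ n := by exact_mod_cast hn3
  have hln : 1 ≤ Real.log n := by
    rw [← Real.log_exp 1]
    apply Real.log_le_log (Real.exp_pos 1)
    have := Real.exp_one_lt_d9
    linarith
  have htR : (3 : ℝ) ≤ t := by exact_mod_cast ht
  have hle : 2 / ((t : ℝ) - 2) ≤ k := by
    rw [div_le_iff₀ (by linarith)]
    rcases Nat.lt_or_ge t 4 with h | h
    · have ht3 : t = 3 := by omega
      have h2k : (2 : ℝ) ≤ k := by exact_mod_cast hk3 ht3
      have ht3R : (t : ℝ) = 3 := by exact_mod_cast ht3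
      rw [ht3R]
      linarith
    · have h4 : (4 : ℝ) ≤ t := by exact_mod_cast h
      have h1k : (1 : ℝ) ≤ k := by exact_mod_cast hk
      nlinarith
  rw [one_div, ← Real.rpow_natCast, ← Real.rpow_neg (by linarith)]
  exact Real.rpow_le_rpow_of_exponent_le hln (by linarith)

end Pool.Agent.Results.MP_52931c_nt.UniformExponents
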